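import Pool.Agent.H88.Sick4

open Pool.Agent.H88.Sick MeasureTheory TopologicalSpace

universe u v

theorem Pool.Agent.Results.MP_d104cf_an.Yes.result
    (K : Type u) [TopologicalSpace K] [CompactSpace K] [T2Space K] [MeasurableSpace K]
    [BorelSpace K] (hK : IsSick.{u, v} K)
    (μ : {ν : Measure K // IsProbabilityMeasure ν ∧ ν.Regular})
    (hμ : @IsGδ _ (TopologicalSpace.induced
      (fun ν (f : C(K, ℝ)) => ∫ x, f x ∂ν.1) inferInstance) {μ}) :
    SeparableSpace (Lp ℝ 1 μ.1) ∧ AnalyticSet {F : Lp ℝ 1 μ.1 | ∃ f : C(K, ℝ), F =ᵐ[μ.1] f} :=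
  analytic hK μ hμ
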